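import Pool.Agent.Work.MP_6197f9_h99.LinR
import Pool.Agent.Work.MP_6197f9_h99.Symp

/-!
# Hand-in for `MP_6197f9_co` (Q2): racks of linear groups whose subrack lattice is not acyclic

`NoInvariant k c` says that no subspace of dimension `k` is invariant under the matrix `c`, `ContainsSL G` that the
group `G` contains all matrices of determinant one, `SpT` is the group generated by the transvections of an
alternating form, and `NoIsotropic f c` says that `0` is the only invariant subspace of `c` on which `f` vanishes.

Proof (linear case): let `W` be a subspace of dimension `k`, `U` the group of the matrices which act trivially on `W`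
and on the quotient by `W`, and `g` a matrix of determinant one which acts irreducibly on `W` and on the quotient. A
subgroup `K` which contains `U`, `g` and a conjugate of `c` has no invariant subspace, since `W` is the only one of
`U ⟨g⟩`. The union of the images of `W` under `K` is a subspace, hence everything, also for the dual space, and it
follows that `K` contains all transvections, all commutators, and (as it meets every class) the whole quandle. The
criterion of `OliverCriterion` for `U ⟨g⟩` gives the theorem. Symplectic case: `U` is the unipotent radical of the
stabiliser of a vector `v`, and an overgroup with a conjugate of `c` moves `v` to a vector not orthogonal to `v`, then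
to all such vectors up to scalars, so it contains all transvections.
-/

namespace Pool.Agent.Results.MP_6197f9_co.LinearGroups

open Pool.SubrackLattice Matrix

/-- Let `F` be a finite field. (a) Let `1 ≤ k < n`. If `C ⊆ GL_n(F)` is closed under conjugation by its elements,
`⟨C⟩` contains `SL_n(F)`, and some element of `C` has no invariant subspace of dimension `k`, then the order complex of
the lattice of subracks of the quandle `C` is not acyclic. (b) The same holds for every finite rack `R` with a solvable
normal subgroup `N` of `Inn R` and a homomorphism `φ` of a subgroup `G` of `GL_n(F)`, `SL_n(F) ≤ G`, onto `Inn R ⧸ N`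
if some `c` in `G` without invariant subspaces of dimension `k` is mapped to the image of a left translation. (c) The
same holds for `C ⊆ GL(V)`, `V ≠ 0` finite with a nondegenerate alternating form `f`, if `⟨C⟩` is the group generated
by the transvections of `f` and some `c` in `C` has no nonzero invariant subspace on which `f` vanishes. -/
theorem result (F : Type*) [Field F] [Finite F] :
    (∀ n k : ℕ, 1 ≤ k → k < n →
      (∀ C : Set (Quandle.Conj (GL (Fin n) F)), IsSubrack C →
        ContainsSL (Subgroup.closure (C : Set (GL (Fin n) F))) →
        (∃ c ∈ C, NoInvariant (F := F) (n := n) k c) → ¬ Acyclic (properSubracks C)) ∧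
      ∀ (R : Type*) [Rack R] [Finite R] (N : Subgroup (Inn R)) [N.Normal], Group.IsSolvable N →
        ∀ G : Subgroup (GL (Fin n) F), ContainsSL G →
        ∀ φ : G →* Inn R ⧸ N, Function.Surjective φ →
        (∃ c : G, φ c ∈ imageQuandle N ∧ NoInvariant k (c : GL (Fin n) F)) →
          ¬ Acyclic (properSubracks (Set.univ : Set R))) ∧
    ∀ (V : Type*) [AddCommGroup V] [Module F V] [Finite V] [Nontrivial V]
      (f : LinearMap.BilinForm F V) (hf : ∀ x, f x x = 0), (∀ x, x ≠ 0 → ∃ y, f x y ≠ 0) →
      ∀ C : Set (Quandle.Conj (V ≃ₗ[F] V)), IsSubrack C →
        Subgroup.closure (C : Set (V ≃ₗ[F] V)) = SpT hf →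
        (∃ c ∈ C, NoIsotropic f c) → ¬ Acyclic (properSubracks C) :=
  ⟨fun _ _ hk hkn => ⟨fun C hC hSL hc => lin_quandle2 hk hkn C hC hSL hc,
    fun R _ _ N _ hN G hSL φ hφ hc => lin_rack hk hkn R N hN G hSL φ hφ hc⟩,
    fun V _ _ _ _ _ hf hnd C hC hG hc => symp_quandle hf hnd C hC hG hc inferInstance⟩

end Pool.Agent.Results.MP_6197f9_co.LinearGroups
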