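import Pool.Agent.Work.MP_6197f9_h99.Oliver

/-!
# Hand-in for `MP_6197f9_co` (Q2): a fixed point criterion for racks with acyclic subrack lattice

`properOver C A` is the set of the proper subgroups which contain `A` and a conjugate of every element of `C`.
`IsOliver p q A` says that `A = P ⟨g⟩ Q`, where `P` is a `p`-group, `g` normalises `P`, and `Q` is a `q`-group which
normalises `P` and `P ⟨g⟩`: these are the groups with normal subgroups `P ≤ H ≤ A`, `P` a `p`-group, `H / P` cyclic,
`A / H` a `q`-group (by Oliver, the groups which have fixed points on all finite acyclic complexes).

Proof: the order complex is acyclic if and only if the poset `X` of the proper subgroups which meet every class is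
acyclic. Smith theory for the `p`-group `P` shows that the fixed points of `P` are acyclic over `ZMod p`, so the
integral homology is killed by a non-zero integer; a Lefschetz formula (trace of an operator which anticommutes with
the differential) for `g`, a count of fixed points for the `q`-group `Q`, and a sign reversing involution for the
closure operator `H ↦ H A` on the fixed points.
-/

namespace Pool.Agent.Results.MP_6197f9_co.OliverCriterion

open Pool.SubrackLattice

/-- Let `R` be a finite rack whose subrack lattice has an acyclic order complex, `N` a solvable normal subgroup of
`Inn R`, `p`, `q` primes, and `A` a subgroup of `Inn R ⧸ N` as in `IsOliver p q`. Then some proper subgroup of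
`Inn R ⧸ N` contains `A` and meets the class of the image of every element of `R`, and the number of chains of such
subgroups, counted with the sign `(-1) ^ (size)`, is divisible by `q`. -/
theorem result (R : Type*) [Rack R] [Finite R] (N : Subgroup (Inn R)) [N.Normal]
    (hN : Group.IsSolvable N) (hac : Acyclic (properSubracks (Set.univ : Set R)))
    (p q : ℕ) (hp : p.Prime) (hq : q.Prime) (A : Subgroup (Inn R ⧸ N)) (hA : IsOliver p q A) :
    (properOver (imageQuandle N) A).Nonempty ∧
      (q : ℤ) ∣ signedCount (properOver (imageQuandle N) A) :=
  oliver_crit R N hN hac p q hp hq A hA

end Pool.Agent.Results.MP_6197f9_co.OliverCriterion
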