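import Pool.Agent.Work.MP_6197f9_h99.PermCrit
import Pool.Agent.Work.MP_6197f9_h99.PermInv3

/-!
# Hand-in for `MP_6197f9_co` (Q2): quandles of permutations whose subrack lattice is not acyclic

`Jor c` says that some power of the permutation `c` is a transposition or a `3`-cycle, and `NoInvariantSet k c` that
no subset of size `k` is invariant under `c`.

Proof of the second part: if `3` divides `n - k`, let `P` be generated by `(n - k) / 3` disjoint `3`-cycles and `g` an
even permutation which permutes these `3`-cycles cyclically and acts as a cycle on the `k` other points. An overgroup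
of `P ⟨g⟩` which contains a conjugate of `c` is transitive, and (as `k` is prime to `n`) primitive, so it contains the
alternating group by Jordan's theorem; the criterion of `OliverCriterion` applies to `P ⟨g⟩`.
-/

namespace Pool.Agent.Results.MP_6197f9_co.PermutationQuandles

open Pool.SubrackLattice Equiv

/-- Let `C` be a set of permutations of `{0, …, n - 1}` which is closed under conjugation by its elements. Then the
order complex of the lattice of subracks of the quandle `C` is not acyclic in each of the following cases.
(1) `⟨C⟩` contains the alternating group and for some `1 ≤ k < n` prime to `n` such that `3` divides `k` or `n - k`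
some element of `C` has no invariant subset of size `k`.
(2) `C` contains an element some power of which is a transposition or a `3`-cycle, and `n` is prime and `⟨C⟩` is
transitive, or `n ≥ 5`, `⟨C⟩` contains the alternating group, and `C` contains a permutation `c` without fixed points
such that `n` is even, or `⟨C⟩` is the symmetric group, or `c ^ 2` has no fixed points. -/
theorem result (n : ℕ) (C : Set (Quandle.Conj (Perm (Fin n)))) (hC : IsSubrack C)
    (h : (alternatingGroup (Fin n) ≤ Subgroup.closure (C : Set (Perm (Fin n))) ∧
        ∃ k : ℕ, 1 ≤ k ∧ k < n ∧ Nat.Coprime k n ∧ (3 ∣ k ∨ 3 ∣ n - k) ∧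
          ∃ c ∈ C, NoInvariantSet (n := n) k c) ∨
      ((∃ c ∈ C, Jor (n := n) c) ∧
        ((n.Prime ∧ MulAction.IsPretransitive
            (Subgroup.closure (C : Set (Perm (Fin n)))) (Fin n)) ∨
          (5 ≤ n ∧ alternatingGroup (Fin n) ≤ Subgroup.closure (C : Set (Perm (Fin n))) ∧
            ∃ c ∈ C, (∀ x : Fin n, (c : Perm (Fin n)) x ≠ x) ∧
              (Even n ∨ Subgroup.closure (C : Set (Perm (Fin n))) = ⊤ ∨
                ∀ x : Fin n, (c : Perm (Fin n)) ((c : Perm (Fin n)) x) ≠ x))))) :
    ¬ Acyclic (properSubracks C) := by
  rcases h with ⟨halt, k, hk, hkn, hco, h3, hc⟩ | ⟨hj, ⟨hn, htr⟩ | ⟨hn, halt, hf⟩⟩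
  · exact perm_inv hk hkn hco h3 C hC halt hc
  · exact prime_degree hn C hC htr hj
  · exact all_degrees hn C hC halt hf hj

end Pool.Agent.Results.MP_6197f9_co.PermutationQuandles
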