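import Pool.Agent.Work.MP_6197f9_h7.RackPart

/-!
# Hand-in for `MP_6197f9_co` (Q2): solvable normal subgroups of the inner automorphism group
-/

namespace Pool.Agent.Results.MP_6197f9_co.SolvableNormal

open Pool.SubrackLattice

/-- Let `R` be a finite rack and let `N` be a solvable normal subgroup of its inner automorphism
group `Inn R`. The order complex of the subrack lattice of `R` is acyclic if and only if
`N ≠ Inn R` and the order complex of the subrack lattice of the image of `R` in the conjugation
quandle of `Inn R ⧸ N` is acyclic. -/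
theorem result (R : Type*) [Rack R] [Finite R] (N : Subgroup (Inn R)) [N.Normal]
    (hN : Group.IsSolvable N) :
    Acyclic (properSubracks (Set.univ : Set R)) ↔
      N ≠ ⊤ ∧ Acyclic (properSubracks (imageQuandle N)) := by
  rw [acyclic_iff_acyc, acyclic_iff_acyc]
  have : Finite (Equiv.Perm R) := inferInstance
  have : Finite (Inn R) := inferInstance
  -- first group description
  have hgen : Subgroup.closure ((translation : R → Inn R) '' Set.univ) = ⊤ := by
    suffices H : ∀ g (hg : g ∈ Inn R), (⟨g, hg⟩ : Inn R) ∈
        Subgroup.closure ((translation : R → Inn R) '' Set.univ) from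
      eq_top_iff.mpr fun g _ => H g.1 g.2
    intro g hg
    have hg' := hg
    unfold Inn at hg'
    induction hg' using Subgroup.closure_induction with
    | mem g h =>
      obtain ⟨x, rfl⟩ := h
      exact Subgroup.subset_closure ⟨x, trivial, rfl⟩
    | one => exact Subgroup.one_mem _
    | mul a b ha hb iha ihb =>
      exact Subgroup.mul_mem _ (iha ha) (ihb hb)
    | inv a ha iha => exact Subgroup.inv_mem _ (iha ha)
  have hconj : ∀ (g : Inn R) (x : R), translation (g.1 x) = g * translation x * g⁻¹ := by
    rintro ⟨g, hg⟩
    unfold Inn at hg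
    induction hg using Subgroup.closure_induction with
    | mem g h =>
      obtain ⟨y, rfl⟩ := h
      intro x
      apply Subtype.ext
      exact Rack.ad_conj y x
    | one => intro x; apply Subtype.ext; simp
    | mul a b ha hb iha ihb =>
      intro x
      have h1 := iha ((b : Equiv.Perm R) x)
      have h2 := ihb x
      apply Subtype.ext
      have h1' := congrArg Subtype.val h1
      have h2' := congrArg Subtype.val h2
      simp only [Subgroup.coe_mul, InvMemClass.coe_inv] at h1' h2' ⊢
      rw [Equiv.Perm.mul_apply, h1', h2']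
      group
    | inv a ha iha =>
      intro x
      have h1 := iha ((a⁻¹ : Equiv.Perm R) x)
      apply Subtype.ext
      have h1' := congrArg Subtype.val h1
      simp only [Subgroup.coe_mul, InvMemClass.coe_inv] at h1' ⊢
      have h3 : a ((a⁻¹ : Equiv.Perm R) x) = x := by
        rw [← Equiv.Perm.mul_apply, mul_inv_cancel]; rfl
      rw [h3] at h1'
      rw [h1']
      group
  have hX : properSubracks (Set.univ : Set R) =
      XX (Inn R).subtype (translation : R → Inn R) Set.univ := rfl
  rw [hX, acyc_XX_iff_UU (φ := (Inn R).subtype) (L := (translation : R → Inn R))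
      (C := (Set.univ : Set R)) (fun g x _ => hconj g x) (fun _ _ _ => Set.mem_univ _) hgen,
    acyc_solvable hgen N, acyc_UM_iff_quotient]
  -- second group description
  set G' := Inn R ⧸ N with hG'
  set C : Set G' := imageQuandle N with hCdef
  have hC1 : (QuotientGroup.mk' N) '' ((translation : R → Inn R) '' Set.univ) = C := by
    rw [Set.image_image, Set.image_univ]; rfl
  have hCgen : Subgroup.closure (id '' C) = ⊤ := by
    rw [Set.image_id, ← hC1, ← MonoidHom.map_closure, hgen]
    exact Subgroup.map_top_of_surjective _ (QuotientGroup.mk'_surjective N)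
  have hCconj : ∀ (g x : G'), x ∈ C → g * x * g⁻¹ ∈ C := by
    rintro g _ ⟨x, rfl⟩
    obtain ⟨g, rfl⟩ := QuotientGroup.mk'_surjective N g
    refine ⟨g.1 x, ?_⟩
    simp only [hconj]
    rfl
  set ψ : G' →* Equiv.Perm G' := (MulAut.toPerm G').comp MulAut.conj with hψ
  have hψ' : ∀ g x : G', ψ g x = g * x * g⁻¹ := fun g x => rfl
  have hX2 : properSubracks (imageQuandle N) = XX ψ (id : G' → G') C := rfl
  have h2 : Acyc (properSubracks (imageQuandle N)) ↔ Acyc (UU C) := by
    rw [hX2, acyc_XX_iff_UU (fun g x _ => hψ' g x) (fun g x hx => by rw [hψ']; exact hCconj g x hx)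
      hCgen, Set.image_id]
  rw [hC1, ← h2]
  refine ⟨fun h => ⟨?_, h⟩, fun h => h.2⟩
  rintro rfl
  apply not_acyc_empty (α := Set G')
  convert h
  symm
  rw [Set.eq_empty_iff_forall_notMem]
  rintro S ⟨_, ⟨s, hs⟩, hS⟩
  apply hS.2
  intro x _
  have : x = s := by
    have : Subsingleton (Inn R ⧸ (⊤ : Subgroup (Inn R))) := QuotientGroup.subsingleton_quotient_top
    exact Subsingleton.elim _ _
  rwa [this]

end Pool.Agent.Results.MP_6197f9_co.SolvableNormal
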